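import Pool.Agent.helper77.HR.RD
import Pool.Agent.helper89.HR.IT

/-!
HR project (MP_58257a_co, S08871), row ST: the start, with 1000 points and weight 1/1000 on each
point.
-/

set_option autoImplicit false

namespace Pool.Agent.helper78.HR

open Finset

theorem hrST_log10 : Real.log 10 ≤ 2.311 := by
  have h1 : Real.log ((10:ℝ) ^ 3) ≤ Real.log ((2:ℝ) ^ 10) :=
    Real.log_le_log (by norm_num) (by norm_num)
  rw [Real.log_pow, Real.log_pow] at h1
  have h2 := Real.log_two_lt_d9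
  push_cast at h1
  linarith

theorem hrST_log {r : ℝ} (hr : (10:ℝ) ^ 30 ≤ r) : (Real.log r + 3) * 10 ^ 15 ≤ 3 * r := by
  have hr0 : 0 < r := lt_of_lt_of_le (by norm_num) hr
  have hs : (10:ℝ) ^ 15 ≤ Real.sqrt r := by
    rw [show (10:ℝ) ^ 15 = Real.sqrt ((10:ℝ) ^ 30) by
      rw [show (10:ℝ) ^ 30 = ((10:ℝ) ^ 15) ^ 2 by norm_num]
      rw [Real.sqrt_sq (by norm_num)]]
    exact Real.sqrt_le_sqrt hr
  have hs0 : 0 < Real.sqrt r := lt_of_lt_of_le (by norm_num) hs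
  have h1 : Real.log r = 2 * Real.log (Real.sqrt r) := by
    rw [Real.log_sqrt hr0.le]; ring
  have h2 : Real.log (Real.sqrt r) ≤ Real.sqrt r - 1 := Real.log_le_sub_one_of_pos hs0
  have h3 : Real.sqrt r * Real.sqrt r = r := Real.mul_self_sqrt hr0.le
  have h4 : Real.log r + 3 ≤ 3 * Real.sqrt r := by
    have : (1:ℝ) ≤ Real.sqrt r := le_trans (by norm_num) hs
    linarith
  calc (Real.log r + 3) * 10 ^ 15 ≤ (3 * Real.sqrt r) * 10 ^ 15 := by gcongr
    _ ≤ (3 * Real.sqrt r) * Real.sqrt r := by gcongr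
    _ = 3 * r := by rw [mul_assoc, h3]

theorem start {ι : Type*} [Fintype ι] (x y : ι → ℤ) (hx : Function.Injective x)
    (hy : Function.Injective y) :
    ∃ V : Finset (ℤ × ℤ), 2 * V.card ≤ Fintype.card ι ∧ Fam x y 1000 V = ∅ := by
  classical
  set n := Fintype.card ι with hndef
  by_cases hn : n < 1000
  · refine ⟨∅, by simp, ?_⟩
    rw [Finset.eq_empty_iff_forall_notMem]
    intro f hf
    rw [mem_Fam] at hf
    have h1 : (cont x y f).card ≤ n := Finset.card_le_univ _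
    omega
  push Not at hn
  have hn0 : (1000:ℝ) ≤ n := by exact_mod_cast hn
  set P : Finset (ℤ × ℤ) := univ.image (fun s : ι => (x s, y s)) with hP
  set c : ℤ × ℤ → ℝ := fun z => if z ∈ P then 1 / 1000 else 0 with hc
  have hinj : Function.Injective (fun s : ι => (x s, y s)) := by
    intro a b hab
    exact hx (Prod.mk.inj hab).1
  have hPcard : P.card = n := by
    rw [hP, Finset.card_image_of_injective _ hinj, Finset.card_univ]
  have hc0 : ∀ z, 0 ≤ c z := by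
    intro z
    simp only [hc]
    split_ifs <;> norm_num
  have hsum : ∀ S : Finset (ℤ × ℤ), ∑ z ∈ S, c z = ((S.filter (fun z => z ∈ P)).card : ℝ) / 1000 := by
    intro S
    simp only [hc]
    rw [← Finset.sum_filter, Finset.sum_const, nsmul_eq_mul]
    ring
  have hW : ∑ z ∈ Gr x y, c z ≤ (n:ℝ) / 1000 := by
    rw [hsum]
    have : ((Gr x y).filter (fun z => z ∈ P)).card ≤ P.card :=
      Finset.card_le_card fun z hz => (Finset.mem_filter.mp hz).2
    rw [hPcard] at this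
    have h2 : (((Gr x y).filter (fun z => z ∈ P)).card : ℝ) ≤ n := by exact_mod_cast this
    linarith
  have hR : ∀ f ∈ Fam x y 1000 ∅, 1 ≤ ∑ z ∈ (Gr x y).filter (fun z => In x y f z), c z := by
    intro f hf
    rw [mem_Fam] at hf
    rw [hsum]
    have h1 : (cont x y f).card ≤ (((Gr x y).filter (fun z => In x y f z)).filter (fun z => z ∈ P)).card := by
      rw [← Finset.card_image_of_injective (cont x y f) hinj]
      refine Finset.card_le_card fun z hz => ?_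
      rw [Finset.mem_image] at hz
      obtain ⟨s, hs, rfl⟩ := hz
      rw [mem_cont] at hs
      rw [Finset.mem_filter, Finset.mem_filter]
      refine ⟨⟨?_, ?_⟩, ?_⟩
      · simp [Gr]
      · exact ⟨hs.1, hs.2.1, hs.2.2.1, hs.2.2.2⟩
      · exact Finset.mem_image_of_mem _ (Finset.mem_univ s)
    rw [hf.2.1] at h1
    have h2 : (1000:ℝ) ≤ ((((Gr x y).filter (fun z => In x y f z)).filter (fun z => z ∈ P)).card : ℝ) := by
      exact_mod_cast h1
    linarith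
  have hNle : n / 10 ^ 30 + 1 ≤ Fintype.card ι := by
    rw [← hndef]
    have : n / 10 ^ 30 ≤ n / 2 := Nat.div_le_div_left (by norm_num) (by norm_num)
    omega
  obtain ⟨V1, hV1, hnu⟩ := round x y hx hy 1000 ∅ c hc0 ((n:ℝ) / 1000) hW hR (n / 10 ^ 30 + 1)
    (by omega) hNle (by positivity)
  rw [← hndef] at hV1
  have hnu' : NuLE x y 1000 (∅ ∪ V1) (n / 10 ^ 30) := by simpa using hnu
  have hMle : n / 10 ^ 30 ≤ Fintype.card ι := by omega
  obtain ⟨V2, hV2, hfam⟩ := iter x y hx hy 1000 (by norm_num) (n / 10 ^ 30) hMle (∅ ∪ V1) hnu'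
  rw [← hndef] at hV2
  refine ⟨∅ ∪ V1 ∪ V2, ?_, hfam⟩
  -- bound of `V1`
  have hb1 : (V1.card : ℝ) ≤ 0.2824 * n := by
    have hN1 : (n:ℝ) / ((n / 10 ^ 30 + 1 : ℕ) : ℝ) ≤ 10 ^ 30 := by
      rw [div_le_iff₀ (by positivity)]
      have h1 : n < 10 ^ 30 * (n / 10 ^ 30 + 1) := Nat.lt_mul_div_succ n (by norm_num)
      have h2 : (n:ℝ) < 10 ^ 30 * ((n / 10 ^ 30 + 1 : ℕ) : ℝ) := by exact_mod_cast h1
      exact h2.le
    have hlog : Real.log ((n:ℝ) / ((n / 10 ^ 30 + 1 : ℕ) : ℝ)) ≤ 69.33 := by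
      calc Real.log ((n:ℝ) / ((n / 10 ^ 30 + 1 : ℕ) : ℝ)) ≤ Real.log ((10:ℝ) ^ 30) :=
            Real.log_le_log (by positivity) hN1
        _ = 30 * Real.log 10 := by rw [Real.log_pow]; norm_num
        _ ≤ 69.33 := by linarith [hrST_log10]
    have h3 : 4 * ((n:ℝ) / 1000) * (1 + Real.log ((n:ℝ) / ((n / 10 ^ 30 + 1 : ℕ) : ℝ))) + 1 ≤
        4 * ((n:ℝ) / 1000) * (1 + 69.33) + 1 := by gcongr
    linarith
  -- bound of `V2`
  have hb2 : (V2.card : ℝ) ≤ 0.1 * n := by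
    rcases Nat.eq_zero_or_pos (n / 10 ^ 30) with hM | hM
    · rw [hM] at hV2
      simp only [Nat.cast_zero, mul_zero, zero_mul] at hV2
      have : (0:ℝ) ≤ 0.1 * n := by positivity
      linarith
    · have hM0 : (0:ℝ) < ((n / 10 ^ 30 : ℕ) : ℝ) := by exact_mod_cast hM
      have hr : (10:ℝ) ^ 30 ≤ (n:ℝ) / ((n / 10 ^ 30 : ℕ) : ℝ) := by
        rw [le_div_iff₀ hM0]
        have h1 : 10 ^ 30 * (n / 10 ^ 30) ≤ n := Nat.mul_div_le n _
        exact_mod_cast h1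
      have h4 := hrST_log hr
      have h5 : ((n / 10 ^ 30 : ℕ) : ℝ) * (Real.log ((n:ℝ) / ((n / 10 ^ 30 : ℕ) : ℝ)) + 3) * 10 ^ 15
          ≤ 3 * n := by
        calc ((n / 10 ^ 30 : ℕ) : ℝ) * (Real.log ((n:ℝ) / ((n / 10 ^ 30 : ℕ) : ℝ)) + 3) * 10 ^ 15
            = ((n / 10 ^ 30 : ℕ) : ℝ) *
              ((Real.log ((n:ℝ) / ((n / 10 ^ 30 : ℕ) : ℝ)) + 3) * 10 ^ 15) := by ring
          _ ≤ ((n / 10 ^ 30 : ℕ) : ℝ) * (3 * ((n:ℝ) / ((n / 10 ^ 30 : ℕ) : ℝ))) := by gcongr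
          _ = 3 * n := by field_simp
      have h6 : (8:ℝ) * (8 * (((1000:ℕ):ℝ) + 1) ^ 3 + 1) * ((n / 10 ^ 30 : ℕ) : ℝ) *
          (Real.log ((n:ℝ) / ((n / 10 ^ 30 : ℕ) : ℝ)) + 3) =
          64192192072 * (((n / 10 ^ 30 : ℕ) : ℝ) *
          (Real.log ((n:ℝ) / ((n / 10 ^ 30 : ℕ) : ℝ)) + 3)) := by
        push_cast
        ring
      rw [h6] at hV2
      have h7 : ((n / 10 ^ 30 : ℕ) : ℝ) * (Real.log ((n:ℝ) / ((n / 10 ^ 30 : ℕ) : ℝ)) + 3)
          ≤ 3 * n / 10 ^ 15 := by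
        rw [le_div_iff₀ (by norm_num)]
        exact h5
      have hnn : (0:ℝ) ≤ n := by positivity
      nlinarith [h7]
  have h8 : (∅ ∪ V1 ∪ V2).card ≤ V1.card + V2.card := by
    rw [Finset.empty_union]
    exact Finset.card_union_le _ _
  have h9 : ((∅ ∪ V1 ∪ V2).card : ℝ) ≤ V1.card + V2.card := by exact_mod_cast h8
  have h10 : (2:ℝ) * ((∅ ∪ V1 ∪ V2).card : ℝ) ≤ n := by linarith
  exact_mod_cast h10

end Pool.Agent.helper78.HR
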